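import Pool.Agent.Y511.MC.Grp
import Pool.Agent.H890R2.Geo4.PD

set_option autoImplicit false

/-! Coefficient modules for the metacyclic groups. -/

namespace Pool.Agent.Y511.MC

/-- a prime `q` dividing `m` with `r ^ 2 ≠ 1` modulo `q`, and a multiple `k q ≡ 1` modulo `n` -/
structure Pr (P : Par) where
  /-- the prime -/
  q : ℕ
  /-- the factor -/
  k : ℕ
  pr : q.Prime
  dvd : q ∣ P.m
  ne1 : (P.r : ZMod q) - 1 ≠ 0
  ne2 : (P.r : ZMod q) ^ 2 - 1 ≠ 0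
  hk : k * q % P.n = 1

theorem exists_Pr (P : Par) : Nonempty (Pr P) := by
  -- the sum of the powers
  set S : ℕ := ∑ i ∈ Finset.range P.n, P.r ^ i with hS
  have hgeo : S * (P.r - 1) = P.m := by
    have h := Nat.geomSum_eq (m := P.r) P.hr P.n
    have hdvd : (P.r - 1) ∣ P.r ^ P.n - 1 := by
      simpa using Nat.sub_dvd_pow_sub_pow P.r 1 P.n
    rw [hS, h, Nat.div_mul_cancel hdvd]
    rfl
  have hS1 : 1 < S := by
    have : ∑ i ∈ Finset.range 2, P.r ^ i ≤ S :=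
      Finset.sum_le_sum_of_subset (fun i hi => by
        rw [Finset.mem_range] at hi ⊢
        have := P.hn; omega)
    rw [Finset.sum_range_succ, Finset.sum_range_one] at this
    have := P.hr
    simp at *
    omega
  obtain ⟨q, hq, hqS⟩ := Nat.exists_prime_and_dvd (n := S) (by omega)
  have : Fact q.Prime := ⟨hq⟩
  have hqm : q ∣ P.m := by rw [← hgeo]; exact Dvd.dvd.mul_right hqS _
  have hqn : Nat.Coprime q P.n := by
    rw [hq.coprime_iff_not_dvd]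
    intro h
    have h1 : q ∣ 1 := by
      have := Nat.dvd_gcd h hqm
      rwa [P.cop'.gcd_eq_one] at this
    exact hq.one_lt.ne' (Nat.dvd_one.1 h1)
  have ne1 : (P.r : ZMod q) - 1 ≠ 0 := by
    intro h
    have hr1 : (P.r : ZMod q) = 1 := sub_eq_zero.1 h
    have h2 : ((S : ℕ) : ZMod q) = 0 := (ZMod.natCast_eq_zero_iff _ _).2 hqS
    rw [hS] at h2
    push_cast at h2
    rw [hr1] at h2
    simp only [one_pow, Finset.sum_const, Finset.card_range, nsmul_eq_mul, mul_one] at h2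
    have h3 := (ZMod.natCast_eq_zero_iff _ _).1 h2
    exact (hq.coprime_iff_not_dvd.1 hqn) h3
  have ne2 : (P.r : ZMod q) ^ 2 - 1 ≠ 0 := by
    intro h
    have h2 : ((P.r : ZMod q) - 1) * ((P.r : ZMod q) + 1) = 0 := by linear_combination h
    rcases mul_eq_zero.1 h2 with h3 | h3
    · exact ne1 h3
    · have h4 : (P.r : ZMod q) = -1 := eq_neg_of_add_eq_zero_left h3
      have h5 := P.r_pow hqm
      rw [h4, P.odd.neg_one_pow] at h5
      apply ne1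
      rw [h4, h5, sub_self]
  obtain ⟨k, -, hk⟩ := Nat.exists_mul_mod_eq_one_of_coprime hqn (by have := P.hn; omega)
  exact ⟨⟨q, k, hq, hqm, ne1, ne2, by rw [mul_comm]; exact hk⟩⟩

variable {P : Par} (Q : Pr P)

namespace Pr

instance : Fact Q.q.Prime := ⟨Q.pr⟩
instance : NeZero Q.q := ⟨Q.pr.ne_zero⟩
instance : NeZero (Q.q * P.m) := ⟨mul_ne_zero Q.pr.ne_zero (NeZero.ne _)⟩

/-- powers of `r ^ (k q)` in `ℤ / q m` -/
def u (b : ZMod P.n) : ZMod (Q.q * P.m) := ((P.r : ZMod (Q.q * P.m)) ^ (Q.k * Q.q)) ^ b.val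

/-- powers of `r` in `ℤ / q` -/
def t (b : ZMod P.n) : ZMod Q.q := (P.r : ZMod Q.q) ^ b.val

lemma t_add (b b' : ZMod P.n) : Q.t (b + b') = Q.t b * Q.t b' :=
  pow_val_add (P.r_pow Q.dvd) b b'
lemma t_zero : Q.t 0 = 1 := by unfold t; rw [ZMod.val_zero, pow_zero]
lemma t_one : Q.t 1 = P.r := by
  unfold t
  exact pow_val_one (by have := P.hn; omega) _

lemma big_pow : ((P.r : ZMod (Q.q * P.m)) ^ (Q.k * Q.q)) ^ P.n = 1 := by
  have h1 : ((P.r : ZMod (Q.q * P.m)) ^ P.n) ^ Q.q = 1 := by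
    have h2 : ((Q.q * P.m : ℕ) : ℤ) ∣ ((P.m : ℤ) + 1) ^ Q.q - 1 := by
      rw [← mul_geom_sum ((P.m : ℤ) + 1) Q.q]
      push_cast
      rw [mul_comm (Q.q : ℤ), add_sub_cancel_right]
      apply mul_dvd_mul_left
      rw [← ZMod.intCast_zmod_eq_zero_iff_dvd]
      push_cast
      rw [(ZMod.natCast_eq_zero_iff _ _).2 Q.dvd]
      simp
    have h3 : (((((P.m : ℤ) + 1) ^ Q.q - 1 : ℤ)) : ZMod (Q.q * P.m)) = 0 :=
      (ZMod.intCast_zmod_eq_zero_iff_dvd _ _).2 h2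
    push_cast at h3
    have h4 : (P.r : ZMod (Q.q * P.m)) ^ P.n = (P.m : ZMod (Q.q * P.m)) + 1 := by
      have h : ((P.r ^ P.n : ℕ) : ZMod (Q.q * P.m)) = ((P.m + 1 : ℕ) : ZMod (Q.q * P.m)) := by
        rw [P.m_add]
      push_cast at h
      exact h
    rw [h4]
    exact sub_eq_zero.1 h3
  rw [← pow_mul, show Q.k * Q.q * P.n = P.n * Q.q * Q.k by ring, pow_mul, pow_mul, h1, one_pow]

lemma u_add (b b' : ZMod P.n) : Q.u (b + b') = Q.u b * Q.u b' := pow_val_add Q.big_pow b b'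
lemma u_zero : Q.u 0 = 1 := by unfold u; rw [ZMod.val_zero, pow_zero]

lemma pow_kq {d : ℕ} (hd : d ∣ P.m) : (P.r : ZMod d) ^ (Q.k * Q.q) = P.r := by
  rw [pow_eq_pow_mod (Q.k * Q.q) (P.r_pow hd), Q.hk, pow_one]

/-- the inclusion of `ℤ/q` in `ℤ/qm` -/
def iota : ZMod Q.q →+ ZMod (Q.q * P.m) :=
  ZMod.lift Q.q ⟨(zmultiplesHom _ (P.m : ZMod (Q.q * P.m))), by
    change ((Q.q : ℕ) : ℤ) • (P.m : ZMod (Q.q * P.m)) = 0
    rw [zsmul_eq_mul, Int.cast_natCast, ← Nat.cast_mul, ZMod.natCast_self]⟩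

lemma iota_nat (N : ℕ) : Q.iota (N : ZMod Q.q) = (N : ZMod (Q.q * P.m)) * P.m := by
  have e : (N : ZMod Q.q) = (((N : ℕ) : ℤ) : ZMod Q.q) := (Int.cast_natCast N).symm
  rw [e]
  refine (ZMod.lift_coe Q.q _ (N : ℤ)).trans ?_
  change ((N : ℕ) : ℤ) • (P.m : ZMod (Q.q * P.m)) = _
  rw [zsmul_eq_mul, Int.cast_natCast]

lemma iota_inj (c d : ZMod Q.q) (h : Q.iota c = Q.iota d) : c = d := by
  rw [← sub_eq_zero] at h ⊢
  rw [← map_sub] at h
  generalize c - d = t at h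
  rw [← ZMod.natCast_zmod_val t, iota_nat, ← Nat.cast_mul, ZMod.natCast_eq_zero_iff] at h
  have h2 : Q.q ∣ t.val := (Nat.mul_dvd_mul_iff_right (Nat.pos_of_neZero P.m)).1 h
  rw [← ZMod.natCast_zmod_val t]
  exact (ZMod.natCast_eq_zero_iff _ _).2 h2

lemma iota_tw (b : ZMod P.n) (c : ZMod Q.q) : Q.iota (Q.t b * c) = Q.u b * Q.iota c := by
  have e1 : Q.t b * c = ((P.r ^ (Q.k * Q.q * b.val) * c.val : ℕ) : ZMod Q.q) := by
    push_cast
    rw [ZMod.natCast_zmod_val, pow_mul, Q.pow_kq Q.dvd]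
    rfl
  have e2 : Q.iota c = (c.val : ZMod (Q.q * P.m)) * P.m := by
    rw [← iota_nat, ZMod.natCast_zmod_val]
  rw [e1, e2, iota_nat]
  unfold u
  push_cast
  rw [pow_mul]
  ring

/-- the projection -/
def proj : ZMod (Q.q * P.m) →+* ZMod P.m := ZMod.castHom (dvd_mul_left _ _) (ZMod P.m)

lemma proj_u (b : ZMod P.n) : Q.proj (Q.u b) = Gp.tw b := by
  unfold u
  rw [map_pow, map_pow, map_natCast, Q.pow_kq dvd_rfl]
  rfl

lemma proj_val (c : ZMod P.m) : Q.proj (c.val : ZMod (Q.q * P.m)) = c := by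
  rw [map_natCast, ZMod.natCast_zmod_val]

lemma proj_zero (x : ZMod (Q.q * P.m)) (hx : Q.proj x = 0) : ∃ c, Q.iota c = x := by
  rw [← ZMod.natCast_zmod_val x, map_natCast, ZMod.natCast_eq_zero_iff] at hx
  obtain ⟨s, hs⟩ := hx
  refine ⟨(s : ZMod Q.q), ?_⟩
  rw [iota_nat, ← Nat.cast_mul, Nat.mul_comm s P.m, ← hs, ZMod.natCast_zmod_val]

lemma proj_iota (c : ZMod Q.q) : Q.proj (Q.iota c) = 0 := by
  have e2 : Q.iota c = (c.val : ZMod (Q.q * P.m)) * P.m := by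
    rw [← iota_nat, ZMod.natCast_zmod_val]
  rw [e2, map_mul, map_natCast, map_natCast, ZMod.natCast_self, mul_zero]

lemma no_M (M : ZMod (Q.q * P.m)) (h1 : (P.m : ZMod (Q.q * P.m)) * M = 0) (h2 : Q.proj M = 1) :
    False := by
  rw [← ZMod.natCast_zmod_val M, ← Nat.cast_mul, ZMod.natCast_eq_zero_iff] at h1
  have h3 : Q.q ∣ M.val := by
    have : P.m * Q.q ∣ P.m * M.val := by
      refine dvd_trans (dvd_of_eq (Nat.mul_comm _ _)) h1
    exact (Nat.mul_dvd_mul_iff_left (Nat.pos_of_neZero P.m)).1 this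
  rw [← ZMod.natCast_zmod_val M, map_natCast] at h2
  have h4 : ((M.val : ℕ) : ZMod P.m) = ((1 : ℕ) : ZMod P.m) := by rw [h2, Nat.cast_one]
  have h5 := (ZMod.natCast_eq_natCast_iff _ _ _).1 h4
  have h6 : M.val ≡ 1 [MOD Q.q] := h5.of_dvd Q.dvd
  have h7 : Q.q ∣ 1 := (Nat.ModEq.dvd_iff h6 dvd_rfl).1 h3
  exact Q.pr.one_lt.ne' (Nat.dvd_one.1 h7)

/-- the action on `ℤ/qm` -/
def rhoB : Gp P →* AddMonoid.End (ZMod (Q.q * P.m)) where
  toFun g := AddMonoidHom.mulLeft (Q.u g.b)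
  map_one' := AddMonoidHom.ext fun x => by
    change Q.u 0 * x = x
    rw [u_zero, one_mul]
  map_mul' g h := AddMonoidHom.ext fun x => by
    change Q.u (g.b + h.b) * x = Q.u g.b * (Q.u h.b * x)
    rw [u_add, mul_assoc]

/-- the action on `ℤ/q` -/
def rhoS : Gp P →* AddMonoid.End (ZMod Q.q) where
  toFun g := AddMonoidHom.mulLeft (Q.t g.b)
  map_one' := AddMonoidHom.ext fun x => by
    change Q.t 0 * x = x
    rw [t_zero, one_mul]
  map_mul' g h := AddMonoidHom.ext fun x => by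
    change Q.t (g.b + h.b) * x = Q.t g.b * (Q.t h.b * x)
    rw [t_add, mul_assoc]

lemma rhoS_apply (g : Gp P) (c : ZMod Q.q) : Q.rhoS g c = Q.t g.b * c := rfl

/-- the action on `ℤ/q` by a character -/
def rhoC (χ : Gp P →* ZMod Q.q) : Gp P →* AddMonoid.End (ZMod Q.q) where
  toFun g := AddMonoidHom.mulLeft (χ g)
  map_one' := AddMonoidHom.ext fun x => by
    change χ 1 * x = x
    rw [map_one, one_mul]
  map_mul' g h := AddMonoidHom.ext fun x => by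
    change χ (g * h) * x = χ g * (χ h * x)
    rw [map_mul, mul_assoc]

lemma rhoC_apply (χ : Gp P →* ZMod Q.q) (g : Gp P) (c : ZMod Q.q) : Q.rhoC χ g c = χ g * c := rfl

/-- the character of the twisted module -/
def chi (w : Gp P →* ℤˣ) : Gp P →* ZMod Q.q where
  toFun g := (((w g : ℤˣ) : ℤ) : ZMod Q.q) * Q.t g.b
  map_one' := by
    rw [map_one, Gp.one_b, t_zero]; simp
  map_mul' g h := by
    rw [map_mul, Gp.mul_b, t_add]
    push_cast
    ring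

lemma twist_eq (w : Gp P →* ℤˣ) :
    Pool.Agent.H890R2.Geo4.twist Q.rhoS w = Q.rhoC (Q.chi w) := by
  refine MonoidHom.ext fun g => AddMonoidHom.ext fun c => ?_
  change ((w g : ℤˣ) : ℤ) • (Q.t g.b * c) = (((w g : ℤˣ) : ℤ) : ZMod Q.q) * Q.t g.b * c
  rw [zsmul_eq_mul]
  ring

lemma w_Y (w : Gp P →* ℤˣ) : w Gp.Y = 1 := by
  have h1 : (w (Gp.Y : Gp P)) ^ P.n = 1 := by
    rw [← map_pow, Gp.Y_pow_n, map_one]
  rcases Int.units_eq_one_or (w Gp.Y) with h | h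
  · exact h
  · rw [h, P.odd.neg_one_pow] at h1
    exact absurd h1 (by decide)

lemma w_X (w : Gp P →* ℤˣ) : w Gp.X = w Gp.X ^ P.r := by
  have h := congrArg w (Gp.rel (P := P))
  rw [map_mul, map_mul, map_pow, w_Y, one_mul, mul_one] at h
  exact h

lemma chi_Y (w : Gp P →* ℤˣ) : Q.chi w Gp.Y = P.r := by
  change (((w Gp.Y : ℤˣ) : ℤ) : ZMod Q.q) * Q.t 1 = _
  rw [w_Y, t_one]; simp

lemma chi_X (w : Gp P →* ℤˣ) : Q.chi w Gp.X = (((w Gp.X : ℤˣ) : ℤ) : ZMod Q.q) := by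
  change (((w Gp.X : ℤˣ) : ℤ) : ZMod Q.q) * Q.t 0 = _
  rw [t_zero, mul_one]

/-- either `χ(X) = 1`, or `χ(X) = -1` and `r` is odd -/
lemma chi_X_cases (w : Gp P →* ℤˣ) : Q.chi w Gp.X = 1 ∨ (Q.chi w Gp.X = -1 ∧ Odd P.r) := by
  rw [chi_X]
  rcases Int.units_eq_one_or (w Gp.X) with h | h
  · left; rw [h]; simp
  · right
    refine ⟨by rw [h]; simp, ?_⟩
    have h2 := w_X w
    rw [h] at h2
    by_contra hc
    rw [Nat.not_odd_iff_even] at hc
    rw [hc.neg_one_pow] at h2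
    exact absurd h2 (by decide)

end Pr

end Pool.Agent.Y511.MC
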