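import Pool.Agent.Y511.MC.Coef

set_option autoImplicit false

/-! The metacyclic groups are not groups of spaces with three-dimensional duality. -/

namespace Pool.Agent.Y511.MC

open Pool.Agent.H890R2.Geo4
open Pool.Agent.Helper922.HB.Sc (Sing sface)
open Pool.Agent.Helper158.PD (pathSx exists_tri exists_sq exists_cst exists_path exists_faces
  eol_pathSx_one eol_pathSx_zero)

universe u

variable {P : Par} (Q : Pr P)
variable {E : Type u} [TopologicalSpace E] [MulAction (Gp P) E] [ContinuousConstSMul (Gp P) E]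

theorem tw_inv_mul (g h : Gp P) : (Gp.tw g.b : ZMod P.m) * (g⁻¹ * h).a = h.a - g.a := by
  have : (g * (g⁻¹ * h)).a = h.a := by rw [mul_inv_cancel_left]
  rw [Gp.mul_a] at this
  rw [← this]; ring

/-- `H²(E/G; B) ≠ 0` for the module `B = ℤ/q` -/
theorem coh2_ne [SimplyConnectedSpace E] (hfree : ∀ (g : Gp P) (x : E), g • x = x → g = 1) :
    ∃ F ∈ coCyc E Q.rhoS 2, F ∉ coBdr E Q.rhoS 2 := by
  obtain ⟨κ, hκ⟩ := exists_kappa hfree
  let u : Sing E 1 → ZMod (Q.q * P.m) := fun σ =>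
    Q.u (κ (vx 0 σ)).b * (((κ (vx 0 σ))⁻¹ * κ (vx 1 σ)).a.val : ZMod (Q.q * P.m))
  have hu : ∀ (g : Gp P) (σ : Sing E 1), u (tra g σ) = Q.u g.b * u σ := by
    intro g σ
    change Q.u (κ (vx 0 (tra g σ))).b * (((κ (vx 0 (tra g σ)))⁻¹ * κ (vx 1 (tra g σ))).a.val :
      ZMod (Q.q * P.m)) = Q.u g.b * (Q.u (κ (vx 0 σ)).b *
        (((κ (vx 0 σ))⁻¹ * κ (vx 1 σ)).a.val : ZMod (Q.q * P.m)))
    rw [vx_tra, vx_tra, hκ, hκ, Gp.mul_b, Q.u_add]
    have : (g * κ (vx 0 σ))⁻¹ * (g * κ (vx 1 σ)) = (κ (vx 0 σ))⁻¹ * κ (vx 1 σ) := by group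
    rw [this, mul_assoc]
  have hpu : ∀ σ : Sing E 1, Q.proj (u σ) = (κ (vx 1 σ)).a - (κ (vx 0 σ)).a := by
    intro σ
    change Q.proj (Q.u (κ (vx 0 σ)).b *
      (((κ (vx 0 σ))⁻¹ * κ (vx 1 σ)).a.val : ZMod (Q.q * P.m))) = _
    rw [map_mul, Q.proj_u, Q.proj_val, tw_inv_mul]
  have hF : ∀ τ : Sing E 2, ∃ c : ZMod Q.q, Q.iota c = cob E (ZMod (Q.q * P.m)) 1 u τ := by
    intro τ
    apply Q.proj_zero
    rw [cob_one_apply, map_add, map_sub, hpu, hpu, hpu]
    simp only [vx_face]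
    have a1 : (0 : Fin 3).succAbove (1 : Fin 2) = 2 := by decide
    have a2 : (0 : Fin 3).succAbove (0 : Fin 2) = 1 := by decide
    have a3 : (1 : Fin 3).succAbove (1 : Fin 2) = 2 := by decide
    have a4 : (1 : Fin 3).succAbove (0 : Fin 2) = 0 := by decide
    have a5 : (2 : Fin 3).succAbove (1 : Fin 2) = 1 := by decide
    have a6 : (2 : Fin 3).succAbove (0 : Fin 2) = 0 := by decide
    rw [a1, a2, a3, a4, a5, a6]
    ring
  choose F hF using hF
  have hiF : (fun τ => Q.iota (F τ)) = cob E (ZMod (Q.q * P.m)) 1 u := funext hF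
  have heq : F ∈ eqCo E Q.rhoS 2 := by
    intro g τ
    apply Q.iota_inj
    rw [hF, Q.rhoS_apply, Q.iota_tw, hF]
    exact cob_mem Q.rhoB 1 (f := u) hu g τ
  refine ⟨F, ⟨heq, ?_⟩, ?_⟩
  · change cob E (ZMod Q.q) 2 F = 0
    funext σ
    apply Q.iota_inj
    rw [← cob_map, hiF, cob_cob]
    change (0 : ZMod (Q.q * P.m)) = Q.iota 0
    rw [map_zero]
  · rintro ⟨h, hh, hhF⟩
    let v1 : Sing E 1 → ZMod (Q.q * P.m) := u - fun σ => Q.iota (h σ)
    have hv1 : cob E (ZMod (Q.q * P.m)) 1 v1 = 0 := by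
      change cob E (ZMod (Q.q * P.m)) 1 (u - fun σ => Q.iota (h σ)) = 0
      rw [map_sub]
      funext τ
      rw [Pi.sub_apply, cob_map, hhF, hF, sub_self]
      rfl
    obtain ⟨v, hv⟩ := exact_one hv1
    have hv1e : ∀ (g : Gp P) (σ : Sing E 1), v1 (tra g σ) = Q.u g.b * v1 σ := by
      intro g σ
      change u (tra g σ) - Q.iota (h (tra g σ)) = Q.u g.b * (u σ - Q.iota (h σ))
      have := hh g σ
      rw [hu, this, Q.rhoS_apply, Q.iota_tw, mul_sub]
    -- the translation by `X`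
    obtain ⟨e⟩ : Nonempty E := inferInstance
    obtain ⟨M, hm⟩ : ∃ M : ZMod (Q.q * P.m), M = v (pt ((Gp.X : Gp P) • e)) - v (pt e) := ⟨_, rfl⟩
    have hX : Q.u (Gp.X : Gp P).b = 1 := Q.u_zero
    have hconst : ∀ x : E, v (pt ((Gp.X : Gp P) • x)) - v (pt x) = M := by
      intro x
      let γ : Path e x := PathConnectedSpace.somePath e x
      obtain ⟨γ', hγ'⟩ := tra_pathSx (Gp.X : Gp P) γ
      have h1 := hv1e (Gp.X : Gp P) (pathSx γ)
      rw [hX, one_mul, hγ', ← hv, cob_zero_apply, cob_zero_apply] at h1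
      rw [hm]
      linear_combination h1
    have hpow : ∀ k : ℕ, v (pt (((Gp.X : Gp P) ^ k) • e)) - v (pt e) = k * M := by
      intro k
      induction k with
      | zero => simp
      | succ k ih =>
        rw [pow_succ', mul_smul]
        have := hconst (((Gp.X : Gp P) ^ k) • e)
        push_cast
        linear_combination this + ih
    have h7 : (P.m : ZMod (Q.q * P.m)) * M = 0 := by
      have := hpow P.m
      rw [Gp.X_pow_m, one_smul, sub_self] at this
      rw [this]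
    -- but `M` is one modulo `m`
    let γ : Path e ((Gp.X : Gp P) • e) := PathConnectedSpace.somePath _ _
    have h2 : v1 (pathSx γ) = M := by
      rw [← hv, cob_zero_apply, hm]
    have h3 : Q.proj (v1 (pathSx γ)) = 1 := by
      change Q.proj (u (pathSx γ) - Q.iota (h (pathSx γ))) = 1
      rw [map_sub, Q.proj_iota, hpu, sub_zero]
      have h4 : vx 1 (pathSx γ) = (Gp.X : Gp P) • e := eol_pathSx_one γ
      have h5 : vx 0 (pathSx γ) = e := eol_pathSx_zero γ
      rw [h4, h5, hκ, Gp.mul_a]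
      have h6 : (Gp.X : Gp P).a = 1 := rfl
      have h7 : (Gp.tw (Gp.X : Gp P).b : ZMod P.m) = 1 := Gp.tw_zero
      rw [h6, h7]
      ring
    rw [h2] at h3
    exact Q.no_M M h7 h3

/-- `H₁(E/G; B) = 0` for the module `B = ℤ/q` with the action by a character `χ` -/
theorem hom1_zero [SimplyConnectedSpace E] (χ : Gp P →* ZMod Q.q)
    (hY : χ Gp.Y = P.r) (hX : χ Gp.X = 1 ∨ (χ Gp.X = -1 ∧ Odd P.r)) :
    ∀ c ∈ cyc E (Q.rhoC χ) 1, c ∈ bdy E (Q.rhoC χ) 1 := by
  intro c hc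
  by_contra hcN
  let N' : Submodule (ZMod Q.q) (Sing E 1 →₀ ZMod Q.q) :=
    AddSubgroup.toZModSubmodule Q.q (bdy E (Q.rhoC χ) 1)
  have hcN' : c ∉ N' := hcN
  obtain ⟨f, hfc, hf⟩ := Submodule.exists_le_ker_of_notMem hcN'
  have hf' : ∀ d ∈ bdy E (Q.rhoC χ) 1, f d = 0 := fun d hd => LinearMap.mem_ker.1 (hf hd)
  let u : Sing E 1 → ZMod Q.q := fun σ => f (Finsupp.single σ 1)
  have hfs : ∀ (σ : Sing E 1) (b : ZMod Q.q), f (Finsupp.single σ b) = b * u σ := by
    intro σ b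
    have : Finsupp.single σ b = b • Finsupp.single σ (1 : ZMod Q.q) := by
      rw [Finsupp.smul_single, smul_eq_mul, mul_one]
    rw [this, map_smul, smul_eq_mul]
  have hu : ∀ (g : Gp P) (σ : Sing E 1), χ g * u (tra g σ) = u σ := by
    intro g σ
    have h1 : Finsupp.single (tra g σ) (Q.rhoC χ g 1) - Finsupp.single σ 1 ∈
        bdy E (Q.rhoC χ) 1 :=
      (le_sup_right : coinv E (Q.rhoC χ) 1 ≤ bdy E (Q.rhoC χ) 1)
        (AddSubgroup.subset_closure ⟨g, σ, 1, rfl⟩)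
    have h2 := hf' _ h1
    rw [map_sub, hfs, hfs, Q.rhoC_apply, mul_one, one_mul, sub_eq_zero] at h2
    exact h2
  have hcu : cob E (ZMod Q.q) 1 u = 0 := by
    funext τ
    have h1 : bdr E (ZMod Q.q) 1 (Finsupp.single τ 1) ∈ bdy E (Q.rhoC χ) 1 :=
      (le_sup_left : (bdr E (ZMod Q.q) 1).range ≤ bdy E (Q.rhoC χ) 1) ⟨_, rfl⟩
    have h2 := hf' _ h1
    refine Eq.trans ?_ h2
    change ∑ i : Fin 3, (-1 : ℤ) ^ (i : ℕ) • u (sface 1 i τ) =
      f (bdr E (ZMod Q.q) 1 (Finsupp.single τ 1))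
    unfold bdr
    rw [Finsupp.liftAddHom_apply_single, AddMonoidHom.finsetSum_apply, map_sum]
    refine Finset.sum_congr rfl fun i _ => ?_
    rw [AddMonoidHom.smul_apply, map_zsmul]
    rfl
  obtain ⟨v, hv⟩ := exact_one hcu
  obtain ⟨e⟩ : Nonempty E := inferInstance
  obtain ⟨μ, hm⟩ : ∃ μ : Gp P → ZMod Q.q, ∀ g, μ g = χ g * v (pt (g • e)) - v (pt e) :=
    ⟨_, fun _ => rfl⟩
  have hconst : ∀ (g : Gp P) (x : E), χ g * v (pt (g • x)) - v (pt x) = μ g := by
    intro g x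
    let γ : Path e x := PathConnectedSpace.somePath e x
    obtain ⟨γ', hγ'⟩ := tra_pathSx g γ
    have h1 := hu g (pathSx γ)
    rw [hγ', ← hv, cob_zero_apply, cob_zero_apply] at h1
    rw [hm]
    linear_combination h1
  have hmul : ∀ g h : Gp P, μ (g * h) = μ h + χ h * μ g := by
    intro g h
    rw [← hconst (g * h) e, ← hconst h e, ← hconst g (h • e), mul_smul, map_mul]
    ring
  -- correct `v` by a constant
  obtain ⟨s, hs⟩ : ∃ s : ZMod Q.q, μ Gp.Y + (χ Gp.Y - 1) * s = 0 := by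
    refine ⟨-μ Gp.Y / (χ Gp.Y - 1), ?_⟩
    have : χ Gp.Y - 1 ≠ 0 := by rw [hY]; exact Q.ne1
    rw [mul_div_cancel₀ _ this, add_neg_cancel]
  let v' : Sing E 0 → ZMod Q.q := fun σ => v σ + s
  let m' : Gp P → ZMod Q.q := fun g => μ g + (χ g - 1) * s
  have hmul' : ∀ g h : Gp P, m' (g * h) = m' h + χ h * m' g := by
    intro g h
    change μ (g * h) + (χ (g * h) - 1) * s =
      (μ h + (χ h - 1) * s) + χ h * (μ g + (χ g - 1) * s)
    rw [hmul, map_mul]
    ring
  have hmY : m' Gp.Y = 0 := hs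
  have hm1 : m' 1 = 0 := by
    have h1 := hmul' 1 1
    rw [one_mul, map_one, one_mul] at h1
    exact left_eq_add.1 h1
  have hrel : m' Gp.X = (P.r : ZMod Q.q) * m' ((Gp.X : Gp P) ^ P.r) := by
    have h1 := congrArg m' (Gp.rel (P := P))
    rw [hmul', hmul', hmY, mul_zero, add_zero, zero_add, hY] at h1
    exact h1
  have hmX : m' Gp.X = 0 := by
    rcases hX with hX | ⟨hX, hodd⟩
    · have hp : ∀ k : ℕ, m' ((Gp.X : Gp P) ^ k) = k * m' Gp.X := by
        intro k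
        induction k with
        | zero => rw [pow_zero, hm1]; simp
        | succ k ih => rw [pow_succ, hmul', ih, hX]; push_cast; ring
      rw [hp] at hrel
      have h3 : ((P.r : ZMod Q.q) ^ 2 - 1) * m' Gp.X = 0 := by linear_combination -hrel
      exact (mul_eq_zero.1 h3).resolve_left Q.ne2
    · have hp : ∀ k : ℕ, m' ((Gp.X : Gp P) ^ (2 * k)) = 0 := by
        intro k
        induction k with
        | zero => rw [mul_zero, pow_zero, hm1]
        | succ k ih =>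
          rw [mul_add, mul_one, pow_add, hmul', ih, mul_zero, add_zero, pow_two, hmul', hX]
          ring
      obtain ⟨k, hk⟩ := hodd
      rw [hk, pow_succ, hmul', hp, mul_zero, add_zero, ← hk] at hrel
      have h3 : ((P.r : ZMod Q.q) - 1) * m' Gp.X = 0 := by linear_combination -hrel
      exact (mul_eq_zero.1 h3).resolve_left Q.ne1
  have hpow : ∀ g : Gp P, m' g = 0 → ∀ k : ℕ, m' (g ^ k) = 0 := by
    intro g hg k
    induction k with
    | zero => rw [pow_zero]; exact hm1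
    | succ k ih => rw [pow_succ, hmul', hg, ih]; ring
  have hall : ∀ g : Gp P, m' g = 0 := by
    intro g
    rw [Gp.eq_prod g, hmul', hpow _ hmX, hpow _ hmY]
    ring
  have hv' : ∀ (g : Gp P) (σ : Sing E 0), χ g * v' (tra g σ) = v' σ := by
    intro g σ
    rw [pt_eq σ, tra_pt]
    set x := σ (stdSimplex.vertex (S := ℝ) (0 : Fin 1))
    change χ g * (v (pt (g • x)) + s) = v (pt x) + s
    have h1 : μ g + (χ g - 1) * s = 0 := hall g
    rw [← hconst g x] at h1
    linear_combination h1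
  let V : (Sing E 0 →₀ ZMod Q.q) →+ ZMod Q.q :=
    Finsupp.liftAddHom fun σ => AddMonoidHom.mulRight (v' σ)
  have hVs : ∀ (σ : Sing E 0) (b : ZMod Q.q), V (Finsupp.single σ b) = b * v' σ := by
    intro σ b
    change Finsupp.liftAddHom _ (Finsupp.single σ b) = _
    rw [Finsupp.liftAddHom_apply_single]
    rfl
  have hVR : ∀ d ∈ coinv E (Q.rhoC χ) 0, V d = 0 := by
    intro d hd
    have : coinv E (Q.rhoC χ) 0 ≤ V.ker := by
      unfold coinv
      rw [AddSubgroup.closure_le]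
      rintro _ ⟨g, σ, b, rfl⟩
      change V _ = 0
      rw [map_sub, hVs, hVs, Q.rhoC_apply, ← hv' g σ]
      ring
    exact this hd
  have hfV : f.toAddMonoidHom = V.comp (bdr E (ZMod Q.q) 0) := by
    apply Finsupp.addHom_ext
    intro σ b
    change f (Finsupp.single σ b) = V (bdr E (ZMod Q.q) 0 (Finsupp.single σ b))
    unfold bdr
    rw [hfs, Finsupp.liftAddHom_apply_single, AddMonoidHom.finsetSum_apply, map_sum, ← hv]
    change b * ∑ i : Fin 2, (-1 : ℤ) ^ (i : ℕ) • v (sface 0 i σ) = _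
    rw [Fin.sum_univ_two, Fin.sum_univ_two]
    simp only [AddMonoidHom.smul_apply, Finsupp.singleAddHom_apply, map_zsmul, hVs]
    change _ = (-1 : ℤ) ^ ((0 : Fin 2) : ℕ) • (b * (v (sface 0 0 σ) + s)) +
      (-1 : ℤ) ^ ((1 : Fin 2) : ℕ) • (b * (v (sface 0 1 σ) + s))
    simp
    ring
  apply hfc
  have h1 : f c = V (bdr E (ZMod Q.q) 0 c) := DFunLike.congr_fun hfV c
  rw [h1]
  exact hVR _ hc

/-- `H²(E/G; B)` and `H₁(E/G; B^w)` are not isomorphic for `B = ℤ/q`. -/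
theorem not_iso [SimplyConnectedSpace E]
    (hfree : ∀ (g : Gp P) (x : E), g • x = x → g = 1) (w : Gp P →* ℤˣ) :
    IsEmpty (LocCoh E Q.rhoS 2 ≃+ LocHom E (twist Q.rhoS w) 1) := by
  constructor
  intro φ
  rw [Q.twist_eq] at φ
  obtain ⟨F, hF, hF'⟩ := coh2_ne Q hfree
  have hsub : Subsingleton (LocHom E (Q.rhoC (Q.chi w)) 1) := by
    refine ⟨fun a b => ?_⟩
    obtain ⟨a, rfl⟩ := QuotientAddGroup.mk_surjective a
    obtain ⟨b, rfl⟩ := QuotientAddGroup.mk_surjective b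
    exact QuotientAddGroup.eq.2 (hom1_zero Q (Q.chi w) (Q.chi_Y w) (Q.chi_X_cases w) _
      (-a + b).2)
  have h0 : Subsingleton (LocCoh E Q.rhoS 2) := φ.injective.subsingleton
  let z : coCyc E Q.rhoS 2 ⧸ (coBdr E Q.rhoS 2).addSubgroupOf (coCyc E Q.rhoS 2) :=
    QuotientAddGroup.mk (⟨F, hF⟩ : coCyc E Q.rhoS 2)
  have h2 : Subsingleton (coCyc E Q.rhoS 2 ⧸
    (coBdr E Q.rhoS 2).addSubgroupOf (coCyc E Q.rhoS 2)) := h0
  have h1 : z = 0 := Subsingleton.elim _ _
  exact hF' ((QuotientAddGroup.eq_zero_iff (⟨F, hF⟩ : coCyc E Q.rhoS 2)).1 h1)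

/-- The metacyclic group does not act freely on a simply connected space `E` such that `E/G` has
the duality isomorphisms of a Poincaré complex of formal dimension three. -/
theorem not_weakDuality3 [SimplyConnectedSpace E]
    (hfree : ∀ (g : Gp P) (x : E), g • x = x → g = 1) : ¬ WeakDuality3 (Gp P) E := by
  rintro ⟨w, hw⟩
  obtain ⟨Q⟩ := exists_Pr P
  obtain ⟨φ⟩ := hw (ZMod Q.q) Q.rhoS 2 1 rfl
  exact (not_iso Q hfree w).false φ

end Pool.Agent.Y511.MC
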