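import Pool.Agent.H890R2.Geo4.Grp2

set_option autoImplicit false

/-! The metacyclic groups `⟨x, y | y x y⁻¹ = x ^ r, y ^ n⟩`. -/

namespace Pool.Agent.Y511.MC

open CategoryTheory Representation
open Pool.Agent.H890R2.Geo4 (HasPresentation IsDeficiency le_of_finite H4_of_generates
  isZero_of_coprime)

/-- the admissible parameters -/
structure Par where
  /-- the multiplier -/
  r : ℕ
  /-- the order of `y` -/
  n : ℕ
  hr : 2 ≤ r
  hn : 3 ≤ n
  odd : Odd n
  cop : Nat.Coprime n (r ^ n - 1)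

namespace Par

variable (P : Par)

/-- the order of `x` -/
def m : ℕ := P.r ^ P.n - 1

lemma m_add : P.m + 1 = P.r ^ P.n := by
  have : 0 < P.r ^ P.n := Nat.pow_pos (by have := P.hr; omega)
  unfold m; omega

lemma one_lt_m : 1 < P.m := by
  have h1 : P.r ^ 3 ≤ P.r ^ P.n := Nat.pow_le_pow_right (by have := P.hr; omega) P.hn
  have h2 : 2 ^ 3 ≤ P.r ^ 3 := Nat.pow_le_pow_left P.hr 3
  have h3 := P.m_add
  omega

instance : NeZero P.n := ⟨by have := P.hn; omega⟩
instance : NeZero P.m := ⟨by have := P.one_lt_m; omega⟩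

lemma cop' : Nat.Coprime P.n P.m := P.cop

/-- `r ^ n = 1` modulo every divisor of `m` -/
lemma r_pow {q : ℕ} (hq : q ∣ P.m) : (P.r : ZMod q) ^ P.n = 1 := by
  have h : ((P.r ^ P.n : ℕ) : ZMod q) = ((P.m + 1 : ℕ) : ZMod q) := by rw [P.m_add]
  rw [Nat.cast_pow] at h
  rw [h, Nat.cast_add, (ZMod.natCast_eq_zero_iff _ _).2 hq, Nat.cast_one, zero_add]

end Par

/-- powers with exponents in `ZMod n` -/
lemma pow_val_add {M : Type*} [Monoid M] {n : ℕ} [NeZero n] {x : M} (hx : x ^ n = 1)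
    (b b' : ZMod n) : x ^ (b + b').val = x ^ b.val * x ^ b'.val := by
  rw [ZMod.val_add, ← pow_add, ← pow_eq_pow_mod _ hx]

lemma pow_val_one {M : Type*} [Monoid M] {n : ℕ} (hn : 1 < n) (x : M) :
    x ^ (1 : ZMod n).val = x := by
  rw [ZMod.val_one_eq_one_mod, Nat.mod_eq_of_lt hn, pow_one]

/-- the group: pairs `(a, b)` with product `(a, b) (a', b') = (a + r^b a', b + b')` -/
@[ext] structure Gp (P : Par) where
  /-- first coordinate -/
  a : ZMod P.m
  /-- second coordinate -/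
  b : ZMod P.n

namespace Gp

variable {P : Par}

/-- the underlying pairs -/
def toPair : Gp P ≃ ZMod P.m × ZMod P.n where
  toFun g := (g.a, g.b)
  invFun p := ⟨p.1, p.2⟩
  left_inv _ := rfl
  right_inv _ := rfl

instance : Fintype (Gp P) := Fintype.ofEquiv _ toPair.symm

/-- `r^b` -/
def tw (b : ZMod P.n) : ZMod P.m := (P.r : ZMod P.m) ^ b.val

lemma tw_add (b b' : ZMod P.n) : (tw (b + b') : ZMod P.m) = tw b * tw b' :=
  pow_val_add (P.r_pow dvd_rfl) b b'
lemma tw_zero : (tw 0 : ZMod P.m) = 1 := by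
  unfold tw; rw [ZMod.val_zero, pow_zero]
lemma tw_neg (b : ZMod P.n) : (tw (-b) : ZMod P.m) * tw b = 1 := by
  rw [← tw_add, neg_add_cancel, tw_zero]

instance : Mul (Gp P) := ⟨fun g h => ⟨g.a + tw g.b * h.a, g.b + h.b⟩⟩
instance : One (Gp P) := ⟨⟨0, 0⟩⟩
instance : Inv (Gp P) := ⟨fun g => ⟨-(tw (-g.b) * g.a), -g.b⟩⟩

@[simp] lemma mul_a (g h : Gp P) : (g * h).a = g.a + tw g.b * h.a := rfl
@[simp] lemma mul_b (g h : Gp P) : (g * h).b = g.b + h.b := rfl
@[simp] lemma one_a : (1 : Gp P).a = 0 := rfl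
@[simp] lemma one_b : (1 : Gp P).b = 0 := rfl
@[simp] lemma inv_a (g : Gp P) : (g⁻¹).a = -(tw (-g.b) * g.a) := rfl
@[simp] lemma inv_b (g : Gp P) : (g⁻¹).b = -g.b := rfl

instance : Group (Gp P) := Group.ofLeftAxioms
  (by
    intro g h l
    ext1
    · simp only [mul_a, mul_b, tw_add]; ring
    · simp only [mul_b]; ring)
  (by
    intro g
    ext1
    · simp [tw_zero]
    · simp)
  (by
    intro g
    ext1
    · simp
    · simp)

lemma card_eq : Nat.card (Gp P) = P.n * P.m := by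
  rw [Nat.card_eq_fintype_card, Fintype.card_congr toPair, Fintype.card_prod, ZMod.card, ZMod.card,
    mul_comm]

/-- generator of order `m` -/
def X : Gp P := ⟨1, 0⟩
/-- generator of order `n` -/
def Y : Gp P := ⟨0, 1⟩

lemma X_pow (k : ℕ) : (X : Gp P) ^ k = ⟨k, 0⟩ := by
  induction k with
  | zero =>
    rw [pow_zero]
    ext1
    · simp
    · simp
  | succ k ih =>
    rw [pow_succ, ih]
    ext1
    · simp [X, tw_zero]
    · simp [X]

lemma Y_pow (k : ℕ) : (Y : Gp P) ^ k = ⟨0, k⟩ := by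
  induction k with
  | zero =>
    rw [pow_zero]
    ext1
    · simp
    · simp
  | succ k ih =>
    rw [pow_succ, ih]
    ext1
    · simp [Y]
    · simp [Y]

lemma X_pow_m : (X : Gp P) ^ P.m = 1 := by
  rw [X_pow]
  ext1
  · simp
  · rfl
lemma Y_pow_n : (Y : Gp P) ^ P.n = 1 := by
  rw [Y_pow]
  ext1
  · rfl
  · simp

lemma tw_one : (tw 1 : ZMod P.m) = P.r := by
  unfold tw
  exact pow_val_one (by have := P.hn; omega) _

lemma rel : (Y : Gp P) * X = X ^ P.r * Y := by
  rw [X_pow]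
  ext1
  · simp [X, Y, tw_one]
  · simp [X, Y]

lemma rel' : (Y : Gp P) * X * Y⁻¹ = X ^ P.r := by
  rw [rel, mul_inv_cancel_right]

lemma orderOf_X : orderOf (X : Gp P) = P.m := by
  apply Nat.dvd_antisymm (orderOf_dvd_of_pow_eq_one X_pow_m)
  have h := pow_orderOf_eq_one (X : Gp P)
  rw [X_pow] at h
  have h2 : ((orderOf (X : Gp P) : ℕ) : ZMod P.m) = 0 := congrArg Gp.a h
  exact (ZMod.natCast_eq_zero_iff _ _).1 h2
lemma orderOf_Y : orderOf (Y : Gp P) = P.n := by
  apply Nat.dvd_antisymm (orderOf_dvd_of_pow_eq_one Y_pow_n)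
  have h := pow_orderOf_eq_one (Y : Gp P)
  rw [Y_pow] at h
  have h2 : ((orderOf (Y : Gp P) : ℕ) : ZMod P.n) = 0 := congrArg Gp.b h
  exact (ZMod.natCast_eq_zero_iff _ _).1 h2

lemma eq_prod (g : Gp P) : g = X ^ g.a.val * Y ^ g.b.val := by
  rw [X_pow, Y_pow]
  ext1
  · simp
  · simp

end Gp

/-! ### presentation -/

/-- the two relators `y x y⁻¹ x⁻ʳ` and `yⁿ` in the free group on `x, y` -/
def rels (r n : ℕ) : Fin 2 → FreeGroup (Fin 2) :=
  ![FreeGroup.of 1 * FreeGroup.of 0 * (FreeGroup.of 1)⁻¹ * ((FreeGroup.of 0) ^ r)⁻¹,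
    (FreeGroup.of 1) ^ n]

section

variable (P : Par)

/-- the map from the presented group -/
def toGp : PresentedGroup (Set.range (rels P.r P.n)) →* Gp P :=
  PresentedGroup.toGroup (f := ![Gp.X, Gp.Y]) (by
    rintro r ⟨i, rfl⟩
    fin_cases i
    · simp [rels, Gp.rel']
    · simp [rels, Gp.Y_pow_n])

end

section

variable {P : Par} {H : Type*} [Group H] {x y : H}

lemma conj_pow' {r : ℕ} (hxy : y * x * y⁻¹ = x ^ r) (k : ℕ) :
    y ^ k * x * (y ^ k)⁻¹ = x ^ (r ^ k) := by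
  induction k with
  | zero => simp
  | succ k ih =>
    have h1 : y ^ (k + 1) * x * (y ^ (k + 1))⁻¹ = y * (y ^ k * x * (y ^ k)⁻¹) * y⁻¹ := by
      rw [pow_succ' y k, mul_inv_rev]; group
    rw [h1, ih, ← conj_pow, hxy, ← pow_mul, pow_succ']

lemma pow_m (hxy : y * x * y⁻¹ = x ^ P.r) (hy : y ^ P.n = 1) : x ^ P.m = 1 := by
  have h := conj_pow' hxy P.n
  rw [hy, ← P.m_add, pow_succ] at h
  simp only [one_mul, inv_one, mul_one] at h
  exact (mul_eq_right (a := x ^ P.m) (b := x)).1 h.symm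

lemma move {r : ℕ} (hxy : y * x * y⁻¹ = x ^ r) (k j : ℕ) :
    y ^ k * x ^ j = x ^ (r ^ k * j) * y ^ k := by
  have h := conj_pow' hxy k
  have h1 : y ^ k * x ^ j * (y ^ k)⁻¹ = x ^ (r ^ k * j) := by
    rw [← conj_pow, h, pow_mul]
  rw [← h1]; group

lemma pow_val_of_eq {k : ℕ} [NeZero k] (hx : x ^ k = 1) (c : ZMod k) (N : ℕ)
    (h : c = (N : ZMod k)) : x ^ c.val = x ^ N := by
  rw [h, ZMod.val_natCast, ← pow_eq_pow_mod _ hx]

/-- the homomorphism defined by two elements satisfying the relations -/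
def liftGp (x y : H) (hxy : y * x * y⁻¹ = x ^ P.r) (hy : y ^ P.n = 1) : Gp P →* H where
  toFun g := x ^ g.a.val * y ^ g.b.val
  map_one' := by
    rw [Gp.one_a, Gp.one_b, ZMod.val_zero, ZMod.val_zero]; simp
  map_mul' g h := by
    have hxm := pow_m hxy hy
    have e1 : x ^ (g * h).a.val = x ^ (g.a.val + P.r ^ g.b.val * h.a.val) := by
      apply pow_val_of_eq hxm
      rw [Gp.mul_a]
      push_cast
      rw [ZMod.natCast_zmod_val, ZMod.natCast_zmod_val]
      rfl
    have e2 : y ^ (g * h).b.val = y ^ (g.b.val + h.b.val) := by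
      apply pow_val_of_eq hy
      rw [Gp.mul_b]
      push_cast
      rw [ZMod.natCast_zmod_val, ZMod.natCast_zmod_val]
    rw [e1, e2, pow_add, pow_add]
    calc x ^ g.a.val * x ^ (P.r ^ g.b.val * h.a.val) * (y ^ g.b.val * y ^ h.b.val)
        = x ^ g.a.val * (x ^ (P.r ^ g.b.val * h.a.val) * y ^ g.b.val) * y ^ h.b.val := by group
      _ = x ^ g.a.val * (y ^ g.b.val * x ^ h.a.val) * y ^ h.b.val := by rw [move hxy]
      _ = x ^ g.a.val * y ^ g.b.val * (x ^ h.a.val * y ^ h.b.val) := by group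

lemma liftGp_X (hxy : y * x * y⁻¹ = x ^ P.r) (hy : y ^ P.n = 1) :
    liftGp x y hxy hy Gp.X = x := by
  change x ^ (1 : ZMod P.m).val * y ^ (0 : ZMod P.n).val = x
  rw [pow_val_one P.one_lt_m, ZMod.val_zero, pow_zero, mul_one]

lemma liftGp_Y (hxy : y * x * y⁻¹ = x ^ P.r) (hy : y ^ P.n = 1) :
    liftGp x y hxy hy Gp.Y = y := by
  change x ^ (0 : ZMod P.m).val * y ^ (1 : ZMod P.n).val = y
  rw [pow_val_one (by have := P.hn; omega), ZMod.val_zero, pow_zero, one_mul]

end

section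

variable (P : Par)

lemma rel1 : (PresentedGroup.of (rels := Set.range (rels P.r P.n)) 1) *
    (PresentedGroup.of (rels := Set.range (rels P.r P.n)) 0) *
    (PresentedGroup.of (rels := Set.range (rels P.r P.n)) 1)⁻¹ =
    (PresentedGroup.of (rels := Set.range (rels P.r P.n)) 0) ^ P.r := by
  have h : PresentedGroup.mk (Set.range (rels P.r P.n)) (rels P.r P.n 0) = 1 :=
    PresentedGroup.one_of_mem ⟨0, rfl⟩
  have h2 : PresentedGroup.mk (Set.range (rels P.r P.n)) (rels P.r P.n 0) =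
      (PresentedGroup.of (rels := Set.range (rels P.r P.n)) 1) *
    (PresentedGroup.of (rels := Set.range (rels P.r P.n)) 0) *
    (PresentedGroup.of (rels := Set.range (rels P.r P.n)) 1)⁻¹ *
    ((PresentedGroup.of (rels := Set.range (rels P.r P.n)) 0) ^ P.r)⁻¹ := by
    have h3 : rels P.r P.n 0 = FreeGroup.of 1 * FreeGroup.of 0 * (FreeGroup.of 1)⁻¹ *
      ((FreeGroup.of 0) ^ P.r)⁻¹ := rfl
    rw [h3, map_mul, map_mul, map_mul, map_inv, map_inv, map_pow]
    rfl
  rw [h2] at h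
  exact mul_inv_eq_one.1 h

lemma rel2 : (PresentedGroup.of (rels := Set.range (rels P.r P.n)) 1) ^ P.n = 1 := by
  have h : PresentedGroup.mk (Set.range (rels P.r P.n)) (rels P.r P.n 1) = 1 :=
    PresentedGroup.one_of_mem ⟨1, rfl⟩
  have h2 : PresentedGroup.mk (Set.range (rels P.r P.n)) (rels P.r P.n 1) =
      (PresentedGroup.of (rels := Set.range (rels P.r P.n)) 1) ^ P.n := by
    have h3 : rels P.r P.n 1 = (FreeGroup.of 1) ^ P.n := rfl
    rw [h3, map_pow]
    rfl
  rw [← h2, h]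

/-- the group has the balanced presentation `⟨x, y | y x y⁻¹ = xʳ, yⁿ = 1⟩` -/
noncomputable def presEquiv : PresentedGroup (Set.range (rels P.r P.n)) ≃* Gp P :=
  MonoidHom.toMulEquiv (toGp P) (liftGp _ _ (rel1 P) (rel2 P))
    (by
      apply PresentedGroup.ext
      intro i
      fin_cases i
      · change liftGp _ _ (rel1 P) (rel2 P) (toGp P (PresentedGroup.of 0)) = PresentedGroup.of 0
        have : toGp P (PresentedGroup.of 0) = Gp.X := by simp [toGp]
        rw [this, liftGp_X]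
      · change liftGp _ _ (rel1 P) (rel2 P) (toGp P (PresentedGroup.of 1)) = PresentedGroup.of 1
        have : toGp P (PresentedGroup.of 1) = Gp.Y := by simp [toGp]
        rw [this, liftGp_Y])
    (by
      ext1 g
      have hX : toGp P (PresentedGroup.of 0) = Gp.X := by simp [toGp]
      have hY : toGp P (PresentedGroup.of 1) = Gp.Y := by simp [toGp]
      change toGp P ((PresentedGroup.of 0) ^ g.a.val * (PresentedGroup.of 1) ^ g.b.val) = g
      rw [map_mul, map_pow, map_pow, hX, hY, ← Gp.eq_prod])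

theorem isDeficiency_Gp : IsDeficiency (Gp P) 0 := by
  constructor
  · exact ⟨2, 2, ⟨rels P.r P.n, ⟨presEquiv P⟩⟩, by simp⟩
  · rintro e ⟨n, m, h, rfl⟩
    have := le_of_finite h
    have h2 : (n : ℤ) ≤ m := by exact_mod_cast this
    linarith

end

/-- a finite group is not a free product with a nontrivial free group -/
theorem not_freeProduct (G : Type*) [Group G] [Finite G] (α : Type*) [Nonempty α] (H : Type*)
    [Group H] : IsEmpty (G ≃* Monoid.Coprod (FreeGroup α) H) := by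
  constructor
  intro e
  let φ : Monoid.Coprod (FreeGroup α) H →* Multiplicative ℤ :=
    (FreeGroup.lift fun _ => Multiplicative.ofAdd (1 : ℤ)).comp Monoid.Coprod.fst
  obtain ⟨a⟩ := ‹Nonempty α›
  let w : Monoid.Coprod (FreeGroup α) H := Monoid.Coprod.inl (FreeGroup.of a)
  have h1 : φ w = Multiplicative.ofAdd 1 := by
    simp [φ, w]
  have h2 : w ^ Nat.card G = 1 := by
    apply e.symm.injective
    rw [map_pow, map_one]
    exact pow_card_eq_one'
  have h3 := congrArg φ h2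
  rw [map_pow, map_one, h1] at h3
  have h4 := congrArg Multiplicative.toAdd h3
  have h5 : (Nat.card G : ℤ) = 0 := by simpa using h4
  have h6 : 0 < Nat.card G := Nat.card_pos
  omega

section

variable (P : Par)

theorem H4_zpowers (g : Gp P) :
    Limits.IsZero (groupHomology (Rep.trivial ℤ (Subgroup.zpowers g) ℤ) 4) := by
  apply H4_of_generates (Subgroup.zpowers g) ⟨g, Subgroup.mem_zpowers g⟩
  rintro ⟨x, hx⟩
  obtain ⟨k, rfl⟩ := Subgroup.mem_zpowers_iff.1 hx
  exact Subgroup.mem_zpowers_iff.2 ⟨k, by ext1; simp⟩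

theorem index_X : (Subgroup.zpowers (Gp.X : Gp P)).index = P.n := by
  have h := (Subgroup.zpowers (Gp.X : Gp P)).card_mul_index
  rw [Nat.card_zpowers, Gp.orderOf_X, Gp.card_eq, mul_comm] at h
  exact Nat.eq_of_mul_eq_mul_right (by have := P.one_lt_m; omega) h

theorem index_Y : (Subgroup.zpowers (Gp.Y : Gp P)).index = P.m := by
  have h := (Subgroup.zpowers (Gp.Y : Gp P)).card_mul_index
  rw [Nat.card_zpowers, Gp.orderOf_Y, Gp.card_eq] at h
  exact Nat.eq_of_mul_eq_mul_left (by have := P.hn; omega) h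

/-- `H₄(G; ℤ) = 0` -/
theorem H4_Gp : Limits.IsZero (groupHomology (Rep.trivial ℤ (Gp P) ℤ) 4) :=
  isZero_of_coprime ℤ (Subgroup.zpowers (Gp.X : Gp P)) (Subgroup.zpowers (Gp.Y : Gp P))
    (by rw [index_X, index_Y]; exact P.cop') 4 (H4_zpowers P _) (H4_zpowers P _)

end

end Pool.Agent.Y511.MC
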